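import Pool.Agent.W114.HL.Stm
import Pool.Agent.W308.PQ.C1

/-! # Project HL: C1, one large exact prime divisor and some small ones, with a rate -/

set_option autoImplicit false

namespace Pool.Agent.W305.HL

open Finset Filter Topology
open Pool.Agent.H951R4.OD (ch PI Ex mert_le PI_zero)
open Pool.Agent.W114.PQ (wX EP)
open Pool.Agent.W114.HL
open Pool.Agent.W308.PQ (omega_le omega_mul decomp params)

/-- Rankin's trick for sets with fewer than `k` elements -/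
theorem rankin {T : ℝ} (hT : 1 ≤ T) (P : Finset ℕ) (f : ℕ → ℝ) (hf : ∀ p, 0 ≤ f p) (k : ℕ)
    (Q : Finset (Finset ℕ)) (hQ : ∀ ps ∈ Q, ps ⊆ P ∧ ps.card < k) :
    ∑ ps ∈ Q, ∏ p ∈ ps, f p ≤ T ^ k * Real.exp ((∑ p ∈ P, f p) / T) := by
  have hT0 : 0 < T := lt_of_lt_of_le one_pos hT
  have h1 : ∀ ps ∈ Q, ∏ p ∈ ps, f p ≤ T ^ k * ∏ p ∈ ps, (f p / T) := by
    intro ps hps
    have e1 : ∏ p ∈ ps, f p = T ^ ps.card * ∏ p ∈ ps, (f p / T) := by
      rw [← Finset.prod_const, ← Finset.prod_mul_distrib]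
      exact Finset.prod_congr rfl fun p _ => by field_simp
    rw [e1]
    apply mul_le_mul_of_nonneg_right
    · exact pow_le_pow_right₀ hT (hQ ps hps).2.le
    · exact Finset.prod_nonneg fun p _ => div_nonneg (hf p) hT0.le
  calc ∑ ps ∈ Q, ∏ p ∈ ps, f p ≤ ∑ ps ∈ Q, T ^ k * ∏ p ∈ ps, (f p / T) :=
        Finset.sum_le_sum h1
    _ ≤ ∑ ps ∈ P.powerset, T ^ k * ∏ p ∈ ps, (f p / T) := by
        refine Finset.sum_le_sum_of_subset_of_nonneg ?_ fun ps _ _ => ?_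
        · intro ps hps
          exact Finset.mem_powerset.mpr (hQ ps hps).1
        · exact mul_nonneg (by positivity)
            (Finset.prod_nonneg fun p _ => div_nonneg (hf p) hT0.le)
    _ = T ^ k * ∏ p ∈ P, (1 + f p / T) := by
        rw [← Finset.mul_sum, Finset.prod_one_add]
    _ ≤ T ^ k * Real.exp ((∑ p ∈ P, f p) / T) := by
        apply mul_le_mul_of_nonneg_left _ (by positivity)
        rw [Finset.sum_div, Real.exp_sum]
        refine Finset.prod_le_prod (fun p _ => ?_) fun p _ => ?_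
        · have := div_nonneg (hf p) hT0.le
          linarith
        · have := Real.add_one_le_exp (f p / T)
          linarith

open scoped Classical in
/-- the counting bound -/
theorem count_bound (gd : Pool.Agent.W114.PQ.S_GD) (D : Dat) (k w X : ℕ) (G : ℝ) (Cc W κ : ℝ)
    (hCC : ∀ a t : ℕ, 1 ≤ a → a ^ 4 ≤ X → t ≤ w → Ex D.c0 a t →
      ({p : ℕ | p.Prime ∧ t < p ∧ p ≤ X / a ∧ Pass D (a * p)}.ncard : ℝ) ≤
        Cc * (1 + (a.primeFactors.card : ℝ)) ^ κ * (X / a) * W)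
    (ha : ∀ (g : ℕ) (ps : Finset ℕ), 1 ≤ g → (g : ℝ) ≤ G → (∀ p ∈ ps, p.Prime ∧ p ≤ w) →
      ps.card < k → (g * ∏ p ∈ ps, p) ^ 4 ≤ X) :
    ∃ (S1 S2 : Finset ℕ) (Q : Finset (Finset ℕ)) (I : Finset (ℕ × Finset ℕ)),
      (∀ g ∈ S1, G ≤ g ∧ ∀ p : ℕ, ¬ Ex D.c0 g p) ∧
      (∀ g ∈ S2, (1 : ℝ) ≤ g ∧ ∀ p : ℕ, ¬ Ex D.c0 g p) ∧
      (∀ g ∈ S2, (g : ℝ) ≤ G) ∧
      (∀ ps ∈ Q, ps ⊆ PI 0 w ∧ ps.card < k) ∧
      I ⊆ S2 ×ˢ Q ∧
      ({n : ℕ | 1 ≤ n ∧ n ≤ X ∧ Pass D n ∧ (EP D.c0 w n).card < k ∧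
        (EP D.c0 w n).Nonempty ∧
        ∃ r : ℕ, w < r ∧ Ex D.c0 n r ∧ ∀ r' : ℕ, w < r' → Ex D.c0 n r' → r' = r}.ncard : ℝ) ≤
      ∑ g ∈ S1, (X : ℝ) / g + ∑ i ∈ I, Cc *
        (1 + ((i.1 * ∏ p ∈ i.2, p).primeFactors.card : ℝ)) ^ κ *
          (X / ((i.1 * ∏ p ∈ i.2, p : ℕ) : ℝ)) * W := by
  set S0 : Finset ℕ := (Icc 1 X).filter (fun g => ∀ p, ¬ Ex D.c0 g p) with hS0
  set S1 : Finset ℕ := S0.filter (fun g => G < (g : ℝ)) with hS1
  set S2 : Finset ℕ := S0.filter (fun g => (g : ℝ) ≤ G) with hS2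
  set Q : Finset (Finset ℕ) := (PI 0 w).powerset.filter (fun ps => ps.card < k ∧ ps.Nonempty)
    with hQ
  set I : Finset (ℕ × Finset ℕ) := (S2 ×ˢ Q).filter
    (fun i => ∀ t ∈ i.2, Ex D.c0 (i.1 * ∏ p ∈ i.2, p) t) with hI
  have hQm : ∀ ps ∈ Q, ps ⊆ PI 0 w ∧ ps.card < k ∧ ps.Nonempty := by
    intro ps hps
    rw [hQ, Finset.mem_filter, Finset.mem_powerset] at hps
    exact ⟨hps.1, hps.2.1, hps.2.2⟩
  have hPI : ∀ p, p ∈ PI 0 w ↔ p.Prime ∧ p ≤ w := by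
    intro p
    rw [PI, Finset.mem_filter, Finset.mem_Ioc]
    exact ⟨fun h => ⟨h.2, h.1.2⟩, fun h => ⟨⟨h.1.pos, h.2⟩, h.1⟩⟩
  refine ⟨S1, S2, Q, I, ?_, ?_, ?_, fun ps hps => ⟨(hQm ps hps).1, (hQm ps hps).2.1⟩,
    Finset.filter_subset _ _, ?_⟩
  · intro g hg
    rw [hS1, Finset.mem_filter, hS0, Finset.mem_filter] at hg
    exact ⟨hg.2.le, hg.1.2⟩
  · intro g hg
    rw [hS2, Finset.mem_filter, hS0, Finset.mem_filter, Finset.mem_Icc] at hg
    exact ⟨by exact_mod_cast hg.1.1.1, hg.1.2⟩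
  · intro g hg
    rw [hS2, Finset.mem_filter] at hg
    exact hg.2
  -- a choice of an element
  let tt : Finset ℕ → ℕ := fun ps => if h : ps.Nonempty then h.choose else 0
  have htt : ∀ ps : Finset ℕ, ps.Nonempty → tt ps ∈ ps := by
    intro ps h
    simp only [tt, dif_pos h]
    exact h.choose_spec
  let F : ℕ × Finset ℕ → Set ℕ := fun i =>
    {p : ℕ | p.Prime ∧ tt i.2 < p ∧ p ≤ X / (i.1 * ∏ p ∈ i.2, p) ∧
      Pass D ((i.1 * ∏ p ∈ i.2, p) * p)}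
  have hF : ∀ i, (F i).Finite := fun i =>
    (Set.finite_Iic (X / (i.1 * ∏ p ∈ i.2, p))).subset fun p hp => hp.2.2.1
  let U1 : Finset ℕ := S1.biUnion fun g => (Ioc 0 X).filter (g ∣ ·)
  let U2 : Finset ℕ := I.biUnion fun i =>
    (hF i).toFinset.image fun p => (i.1 * ∏ p ∈ i.2, p) * p
  have hsub : {n : ℕ | 1 ≤ n ∧ n ≤ X ∧ Pass D n ∧ (EP D.c0 w n).card < k ∧
        (EP D.c0 w n).Nonempty ∧
        ∃ r : ℕ, w < r ∧ Ex D.c0 n r ∧ ∀ r' : ℕ, w < r' → Ex D.c0 n r' → r' = r} ⊆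
      ((U1 ∪ U2 : Finset ℕ) : Set ℕ) := by
    rintro n ⟨hn1, hnX, hpass, hcard, hne, r, hr, hE, hu⟩
    obtain ⟨g, hg, hex, hn, hEx⟩ := decomp gd hn1 hr hE hu
    have hgX : g ≤ X := by
      have : g ∣ n := by
        rw [hn, mul_assoc]
        exact Dvd.intro _ rfl
      exact (Nat.le_of_dvd hn1 this).trans hnX
    have hgS0 : g ∈ S0 := by
      rw [hS0, Finset.mem_filter, Finset.mem_Icc]
      exact ⟨⟨hg, hgX⟩, hex⟩
    rw [Finset.coe_union, Set.mem_union]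
    rcases lt_or_ge G (g : ℝ) with hG | hG
    · left
      rw [Finset.mem_coe, Finset.mem_biUnion]
      refine ⟨g, ?_, ?_⟩
      · rw [hS1, Finset.mem_filter]
        exact ⟨hgS0, hG⟩
      · rw [Finset.mem_filter, Finset.mem_Ioc]
        refine ⟨⟨hn1, hnX⟩, ?_⟩
        rw [hn, mul_assoc]
        exact Dvd.intro _ rfl
    · right
      set ps := EP D.c0 w n with hps
      have hpsm : ∀ p ∈ ps, p.Prime ∧ p ≤ w := by
        intro p hp
        rw [hps, EP, Finset.mem_filter, Finset.mem_Icc] at hp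
        exact ⟨hp.2.1, hp.1.2⟩
      have ha1 : 1 ≤ g * ∏ p ∈ ps, p := by
        apply Nat.one_le_iff_ne_zero.mpr
        apply mul_ne_zero (by omega)
        exact Finset.prod_ne_zero_iff.mpr fun p hp => (hpsm p hp).1.ne_zero
      have hgS2 : g ∈ S2 := Finset.mem_filter.mpr ⟨hgS0, hG⟩
      have hpsQ : ps ∈ Q := Finset.mem_filter.mpr
        ⟨Finset.mem_powerset.mpr fun p hp => (hPI p).mpr (hpsm p hp), hcard, hne⟩
      rw [Finset.mem_coe, Finset.mem_biUnion]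
      refine ⟨(g, ps), Finset.mem_filter.mpr ⟨Finset.mem_product.mpr ⟨hgS2, hpsQ⟩, hEx⟩, ?_⟩
      · rw [Finset.mem_image]
        refine ⟨r, ?_, hn.symm⟩
        rw [Set.Finite.mem_toFinset]
        refine ⟨hE.1, ?_, ?_, ?_⟩
        · exact lt_of_le_of_lt (hpsm _ (htt ps hne)).2 hr
        · rw [Nat.le_div_iff_mul_le ha1, mul_comm]
          rw [← hn]
          exact hnX
        · change Pass D ((g * ∏ p ∈ ps, p) * r)
          rw [← hn]
          exact hpass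
  have h1 : ({n : ℕ | 1 ≤ n ∧ n ≤ X ∧ Pass D n ∧ (EP D.c0 w n).card < k ∧
        (EP D.c0 w n).Nonempty ∧
        ∃ r : ℕ, w < r ∧ Ex D.c0 n r ∧ ∀ r' : ℕ, w < r' → Ex D.c0 n r' → r' = r}.ncard : ℝ) ≤
      ((U1 ∪ U2 : Finset ℕ).card : ℝ) := by
    have := Set.ncard_le_ncard hsub (Finset.finite_toSet _)
    rw [Set.ncard_coe_finset] at this
    exact_mod_cast this
  have h2 : ((U1 ∪ U2 : Finset ℕ).card : ℝ) ≤ (U1.card : ℝ) + (U2.card : ℝ) := by
    exact_mod_cast Finset.card_union_le _ _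
  have h3 : (U1.card : ℝ) ≤ ∑ g ∈ S1, (X : ℝ) / g := by
    calc (U1.card : ℝ) ≤ ((∑ g ∈ S1, ((Ioc 0 X).filter (g ∣ ·)).card : ℕ) : ℝ) := by
          exact_mod_cast Finset.card_biUnion_le
      _ = ∑ g ∈ S1, ((X / g : ℕ) : ℝ) := by
          rw [Nat.cast_sum]
          refine Finset.sum_congr rfl fun g _ => ?_
          rw [Nat.Ioc_filter_dvd_card_eq_div]
      _ ≤ ∑ g ∈ S1, (X : ℝ) / g := Finset.sum_le_sum fun g _ => Nat.cast_div_le
  have h4 : (U2.card : ℝ) ≤ ∑ i ∈ I, ((F i).ncard : ℝ) := by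
    calc (U2.card : ℝ) ≤ ((∑ i ∈ I, ((hF i).toFinset.image
            fun p => (i.1 * ∏ p ∈ i.2, p) * p).card : ℕ) : ℝ) := by
          exact_mod_cast Finset.card_biUnion_le
      _ ≤ ∑ i ∈ I, ((F i).ncard : ℝ) := by
          rw [Nat.cast_sum]
          refine Finset.sum_le_sum fun i _ => ?_
          rw [Set.ncard_eq_toFinset_card _ (hF i)]
          exact_mod_cast Finset.card_image_le
  have h5 : ∀ i ∈ I, ((F i).ncard : ℝ) ≤ Cc *
        (1 + ((i.1 * ∏ p ∈ i.2, p).primeFactors.card : ℝ)) ^ κ *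
          (X / ((i.1 * ∏ p ∈ i.2, p : ℕ) : ℝ)) * W := by
    intro i hi
    rw [hI, Finset.mem_filter, Finset.mem_product] at hi
    obtain ⟨⟨hi1, hi2⟩, hi3⟩ := hi
    obtain ⟨q1, q2, q3⟩ := hQm _ hi2
    rw [hS2, Finset.mem_filter, hS0, Finset.mem_filter, Finset.mem_Icc] at hi1
    have hpsm : ∀ p ∈ i.2, p.Prime ∧ p ≤ w := fun p hp => (hPI p).mp (q1 hp)
    have ha1 : 1 ≤ i.1 * ∏ p ∈ i.2, p := by
      apply Nat.one_le_iff_ne_zero.mpr
      apply mul_ne_zero (by omega)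
      exact Finset.prod_ne_zero_iff.mpr fun p hp => (hpsm p hp).1.ne_zero
    exact hCC _ (tt i.2) ha1 (ha i.1 i.2 hi1.1.1.1 hi1.2 hpsm q2) (hpsm _ (htt _ q3)).2
      (hi3 _ (htt _ q3))
  calc _ ≤ ((U1 ∪ U2 : Finset ℕ).card : ℝ) := h1
    _ ≤ (U1.card : ℝ) + (U2.card : ℝ) := h2
    _ ≤ _ := add_le_add h3 (h4.trans (Finset.sum_le_sum h5))

theorem ev (cc : S_CC) (gs : Pool.Agent.W114.PQ.S_GS) (gd : Pool.Agent.W114.PQ.S_GD)
    (D : Dat) (hD : Ax D) (ε : ℝ) (hε : 0 < ε) (k : ℕ) : ∃ C : ℝ, 0 < C ∧ ∀ᶠ X : ℕ in atTop,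
  ({n : ℕ | 1 ≤ n ∧ n ≤ X ∧ Pass D n ∧ (EP D.c0 (wX X) n).card < k ∧
    (EP D.c0 (wX X) n).Nonempty ∧
    ∃ r : ℕ, wX X < r ∧ Ex D.c0 n r ∧ ∀ r' : ℕ, wX X < r' → Ex D.c0 n r' → r' = r}.ncard : ℝ) ≤
    C * X * (Real.log X) ^ (ε - 9 / 8) := by
  obtain ⟨C, hC, hCC⟩ := cc D hD
  obtain ⟨Cg, hCg, hGS⟩ := gs D.c0 hD.c0_pos
  obtain ⟨Cm, hCm0, hCm⟩ := mert_le
  have hC0 : 0 < C := lt_of_lt_of_le one_pos hC
  have hCg0 : 0 < Cg := lt_of_lt_of_le one_pos hCg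
  have hκ0 : (0 : ℝ) ≤ D.κ := le_trans zero_le_one hD.κ1
  obtain ⟨T, hT1, hTε⟩ : ∃ T : ℝ, 1 ≤ T ∧ 3 / 4 / T ≤ ε / 2 := by
    refine ⟨1 + 3 / (2 * ε), ?_, ?_⟩
    · have : 0 < 3 / (2 * ε) := by positivity
      linarith
    · have h1 : 0 < 1 + 3 / (2 * ε) := by positivity
      rw [div_le_iff₀ h1]
      have h2 : ε / 2 * (3 / (2 * ε)) = 3 / 4 := by
        field_simp
        norm_num
      nlinarith
  have hT0 : 0 < T := lt_of_lt_of_le one_pos hT1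
  set K : ℝ := C * (10 + k) ^ D.κ * Cg * T ^ k * Real.exp (Cm / T) * (8 * C) ^ (3 / 2 : ℝ)
    with hK
  have hK0 : 0 ≤ K := by positivity
  -- the majorant
  have hy : Tendsto (fun X : ℕ => Real.log (Real.log X)) atTop atTop :=
    Real.tendsto_log_atTop.comp (Real.tendsto_log_atTop.comp tendsto_natCast_atTop_atTop)
  have hmaj : ∀ᶠ X : ℕ in atTop, (Real.log (Real.log X)) ^ (D.κ + 3 / 2 : ℝ) *
      Real.exp (-(ε / 2) * Real.log (Real.log X)) < 1 :=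
    ((tendsto_rpow_mul_exp_neg_mul_atTop_nhds_zero (D.κ + 3 / 2) (ε / 2)
      (by positivity)).comp hy).eventually (gt_mem_nhds one_pos)
  refine ⟨Cg + K, by positivity, ?_⟩
  filter_upwards [params hC k, eventually_gt_atTop 0, hmaj] with X ⟨y, z, hydef, hy1, hLy, hX, hw3,
    hwz, hcz, hwle, hzlow, hXbig⟩ hXpos hsm
  rw [← hydef] at hsm
  have hX0 : (0 : ℝ) < X := by exact_mod_cast hXpos
  set w := wX X with hwdef
  have hw0 : (0 : ℝ) < w := by exact_mod_cast (by omega : 0 < w)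
  have hw1 : (1 : ℝ) ≤ w := by exact_mod_cast (by omega : 1 ≤ w)
  have hy0 : 0 < y := by linarith
  set W : ℝ := (Real.log w) ^ (1 / 2 : ℝ) * (Real.log z) ^ (-(3 / 2) : ℝ) with hW
  obtain ⟨S1, S2, Q, I, hS1, hS2, hS2', hQ, hI, hbd⟩ := count_bound gd D k w X
    (Real.exp (6 * y)) C W D.κ
    (fun a t ha1 ha4 ht hE => by
      have := hCC w z X a t hw3 hwz hcz ha1 ha4 ht hE
      rw [hW, ← mul_assoc]
      exact this)
    (fun g ps hg1 hgG hps hcard => by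
      have h1 : ((∏ p ∈ ps, p : ℕ) : ℝ) ≤ Real.exp (k * Real.exp (3 / 4 * y)) := by
        have e1 : ((∏ p ∈ ps, p : ℕ) : ℝ) ≤ (w : ℝ) ^ ps.card := by
          rw [Nat.cast_prod, ← Finset.prod_const]
          exact Finset.prod_le_prod (fun p _ => Nat.cast_nonneg _)
            fun p hp => by exact_mod_cast (hps p hp).2
        have e2 : (w : ℝ) ^ ps.card ≤ (w : ℝ) ^ k := pow_le_pow_right₀ hw1 hcard.le
        have e3 : (w : ℝ) ^ k ≤ (Real.exp (Real.exp (3 / 4 * y))) ^ k :=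
          pow_le_pow_left₀ hw0.le hwle k
        rw [← Real.exp_nat_mul] at e3
        exact e1.trans (e2.trans e3)
      have h2 : ((g * ∏ p ∈ ps, p : ℕ) : ℝ) ≤
          Real.exp (6 * y) * Real.exp (k * Real.exp (3 / 4 * y)) := by
        rw [Nat.cast_mul]
        exact mul_le_mul hgG h1 (Nat.cast_nonneg _) (Real.exp_pos _).le
      have h3 : (((g * ∏ p ∈ ps, p) ^ 4 : ℕ) : ℝ) ≤ X := by
        rw [Nat.cast_pow]
        refine (pow_le_pow_left₀ (Nat.cast_nonneg _) h2 4).trans ?_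
        rw [← Real.exp_add, ← Real.exp_nat_mul]
        refine le_trans (Real.exp_le_exp.mpr (le_of_eq ?_)) hXbig
        push_cast
        ring
      exact_mod_cast h3)
  -- the first sum
  have hsum1 : ∑ g ∈ S1, (X : ℝ) / g ≤ X * (Cg * Real.exp (-2 * y)) := by
    have h1 := hGS (Real.exp (6 * y)) S1 (Real.one_le_exp (by positivity)) hS1
    have h2 : ∑ g ∈ S1, (X : ℝ) / g = X * ∑ g ∈ S1, (1 : ℝ) / g := by
      rw [Finset.mul_sum]
      exact Finset.sum_congr rfl fun g _ => by ring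
    rw [h2]
    apply mul_le_mul_of_nonneg_left _ hX0.le
    refine h1.trans (le_of_eq ?_)
    rw [← Real.exp_mul]
    congr 2
    ring
  -- the second sum
  have hW0 : 0 ≤ W := mul_nonneg (Real.rpow_nonneg (Real.log_nonneg hw1) _)
    (Real.rpow_nonneg (Real.log_natCast_nonneg _) _)
  have hWle : W ≤ Real.exp (3 / 8 * y) * ((8 * C) ^ (3 / 2 : ℝ) * y ^ (3 / 2 : ℝ) *
      Real.exp (-(3 / 2) * y)) := by
    rw [hW]
    have h1 : Real.log w ≤ Real.exp (3 / 4 * y) := by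
      rw [Real.log_le_iff_le_exp hw0]
      exact hwle
    have h2 : (Real.log w) ^ (1 / 2 : ℝ) ≤ Real.exp (3 / 8 * y) := by
      refine (Real.rpow_le_rpow (Real.log_nonneg hw1) h1 (by norm_num)).trans (le_of_eq ?_)
      rw [← Real.exp_mul]
      congr 1
      ring
    have h3 : (Real.log z) ^ (-(3 / 2) : ℝ) ≤ (8 * C) ^ (3 / 2 : ℝ) * y ^ (3 / 2 : ℝ) *
        Real.exp (-(3 / 2) * y) := by
      have h4 : 0 < Real.exp y / (8 * C * y) := by positivity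
      refine (Real.rpow_le_rpow_of_nonpos h4 hzlow (by norm_num)).trans (le_of_eq ?_)
      rw [Real.div_rpow (Real.exp_pos _).le (by positivity), ← Real.exp_mul,
        Real.rpow_neg (by positivity) (3 / 2), div_inv_eq_mul,
        Real.mul_rpow (by positivity) hy0.le]
      rw [show y * (-(3 / 2) : ℝ) = -(3 / 2) * y by ring]
      ring
    exact mul_le_mul h2 h3 (Real.rpow_nonneg (Real.log_natCast_nonneg _) _) (Real.exp_pos _).le
  have hPI : ∀ p, p ∈ PI 0 w ↔ p.Prime ∧ p ≤ w := by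
    intro p
    rw [PI, Finset.mem_filter, Finset.mem_Ioc]
    exact ⟨fun h => ⟨h.2, h.1.2⟩, fun h => ⟨⟨h.1.pos, h.2⟩, h.1⟩⟩
  have hsum2 : ∑ i ∈ I, C *
        (1 + ((i.1 * ∏ p ∈ i.2, p).primeFactors.card : ℝ)) ^ D.κ *
          (X / ((i.1 * ∏ p ∈ i.2, p : ℕ) : ℝ)) * W ≤
      X * (C * ((10 + k) ^ D.κ * y ^ D.κ) * (Cg * (T ^ k *
        (Real.exp (Cm / T) * Real.exp (3 / 4 / T * y)))) * W) := by
    have hterm : ∀ i ∈ I, C *
        (1 + ((i.1 * ∏ p ∈ i.2, p).primeFactors.card : ℝ)) ^ D.κ *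
          (X / ((i.1 * ∏ p ∈ i.2, p : ℕ) : ℝ)) * W ≤
        X * (C * ((10 + k) ^ D.κ * y ^ D.κ) * ((1 / (i.1 : ℝ)) * ∏ p ∈ i.2, (1 / (p : ℝ))) *
          W) := by
      intro i hi
      have hi' := Finset.mem_product.mp (hI hi)
      have hg := hS2 _ hi'.1
      have hg1 : 1 ≤ i.1 := by exact_mod_cast hg.1
      have hg2 := hS2' _ hi'.1
      have hps := hQ _ hi'.2
      have hpr : ∀ p ∈ i.2, p.Prime := fun p hp => ((hPI p).mp (hps.1 hp)).1
      have h1 : (((i.1 * ∏ p ∈ i.2, p).primeFactors.card : ℕ) : ℝ) ≤ 9 * y + k := by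
        have e1 := omega_mul hg1 hpr
        have e2 := omega_le hg1 hg2
        have e3 : (((i.1 * ∏ p ∈ i.2, p).primeFactors.card : ℕ) : ℝ) ≤
            (i.1.primeFactors.card : ℝ) + (i.2.card : ℝ) := by exact_mod_cast e1
        have e4 : (i.2.card : ℝ) ≤ k := by exact_mod_cast hps.2.le
        linarith
      have hk0 : (0 : ℝ) ≤ k := Nat.cast_nonneg _
      have h2 : (1 + ((i.1 * ∏ p ∈ i.2, p).primeFactors.card : ℝ)) ^ D.κ ≤
          (10 + k) ^ D.κ * y ^ D.κ := by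
        rw [← Real.mul_rpow (by positivity) hy0.le]
        apply Real.rpow_le_rpow (add_nonneg zero_le_one (Nat.cast_nonneg _)) _ hκ0
        nlinarith
      have h3 : (X : ℝ) / ((i.1 * ∏ p ∈ i.2, p : ℕ) : ℝ) =
          X * ((1 / (i.1 : ℝ)) * ∏ p ∈ i.2, (1 / (p : ℝ))) := by
        rw [Nat.cast_mul, Nat.cast_prod, Finset.prod_div_distrib, Finset.prod_const_one]
        rw [div_eq_mul_one_div, one_div_mul_one_div]
      rw [h3]
      have h4 : 0 ≤ (X : ℝ) * ((1 / (i.1 : ℝ)) * ∏ p ∈ i.2, (1 / (p : ℝ))) := by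
        apply mul_nonneg hX0.le
        exact mul_nonneg (by positivity) (Finset.prod_nonneg fun p _ => by positivity)
      calc C * (1 + ((i.1 * ∏ p ∈ i.2, p).primeFactors.card : ℝ)) ^ D.κ *
          (X * ((1 / (i.1 : ℝ)) * ∏ p ∈ i.2, (1 / (p : ℝ)))) * W ≤
          C * ((10 + k) ^ D.κ * y ^ D.κ) *
          (X * ((1 / (i.1 : ℝ)) * ∏ p ∈ i.2, (1 / (p : ℝ)))) * W := by
            apply mul_le_mul_of_nonneg_right _ hW0
            apply mul_le_mul_of_nonneg_right _ h4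
            exact mul_le_mul_of_nonneg_left h2 hC0.le
        _ = _ := by ring
    have hprod : ∑ i ∈ I, ((1 / (i.1 : ℝ)) * ∏ p ∈ i.2, (1 / (p : ℝ))) ≤
        Cg * (T ^ k * (Real.exp (Cm / T) * Real.exp (3 / 4 / T * y))) := by
      have h1 : ∑ i ∈ I, ((1 / (i.1 : ℝ)) * ∏ p ∈ i.2, (1 / (p : ℝ))) ≤
          ∑ i ∈ S2 ×ˢ Q, ((1 / (i.1 : ℝ)) * ∏ p ∈ i.2, (1 / (p : ℝ))) :=
        Finset.sum_le_sum_of_subset_of_nonneg hI fun i _ _ =>
          mul_nonneg (by positivity) (Finset.prod_nonneg fun p _ => by positivity)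
      have h2 : ∑ i ∈ S2 ×ˢ Q, ((1 / (i.1 : ℝ)) * ∏ p ∈ i.2, (1 / (p : ℝ))) =
          (∑ g ∈ S2, (1 : ℝ) / g) * ∑ ps ∈ Q, ∏ p ∈ ps, (1 / (p : ℝ)) := by
        rw [Finset.sum_mul_sum, Finset.sum_product]
      have h3 : ∑ g ∈ S2, (1 : ℝ) / g ≤ Cg := by
        have := hGS 1 S2 le_rfl hS2
        rw [Real.one_rpow, mul_one] at this
        exact this
      have h4 : ∑ ps ∈ Q, ∏ p ∈ ps, (1 / (p : ℝ)) ≤
          T ^ k * (Real.exp (Cm / T) * Real.exp (3 / 4 / T * y)) := by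
        refine (rankin hT1 (PI 0 w) (fun p => 1 / (p : ℝ)) (fun p => by positivity) k Q hQ).trans ?_
        apply mul_le_mul_of_nonneg_left _ (by positivity)
        rw [← Real.exp_add]
        apply Real.exp_le_exp.mpr
        have h5 := (abs_le.mp (hCm w hw3)).2
        have h6 : Real.log (Real.log w) ≤ 3 / 4 * y := by
          have hlw : 0 < Real.log w := Real.log_pos (by
            exact_mod_cast (by omega : 1 < w))
          rw [Real.log_le_iff_le_exp hlw, Real.log_le_iff_le_exp hw0]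
          exact hwle
        have h7 : Cm / T + 3 / 4 / T * y = (Cm + 3 / 4 * y) / T := by ring
        rw [h7]
        apply div_le_div_of_nonneg_right _ hT0.le
        linarith
      rw [h2] at h1
      refine h1.trans (mul_le_mul h3 h4 ?_ hCg0.le)
      exact Finset.sum_nonneg fun ps _ => Finset.prod_nonneg fun p _ => by positivity
    refine (Finset.sum_le_sum hterm).trans ?_
    rw [← Finset.mul_sum, ← Finset.sum_mul, ← Finset.mul_sum]
    apply mul_le_mul_of_nonneg_left _ hX0.le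
    apply mul_le_mul_of_nonneg_right _ hW0
    apply mul_le_mul_of_nonneg_left hprod
    positivity
  have htot := hbd.trans (add_le_add hsum1 hsum2)
  refine htot.trans ?_
  have hrp : (Real.log X) ^ (ε - 9 / 8 : ℝ) = Real.exp ((ε - 9 / 8) * y) := by
    rw [hLy, ← Real.exp_mul]
    congr 1
    ring
  rw [hrp, ← mul_add, show (Cg + K) * X * Real.exp ((ε - 9 / 8) * y)
    = X * (Cg * Real.exp ((ε - 9 / 8) * y) + K * Real.exp ((ε - 9 / 8) * y)) by ring]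
  apply mul_le_mul_of_nonneg_left _ hX0.le
  apply add_le_add
  · apply mul_le_mul_of_nonneg_left _ hCg0.le
    apply Real.exp_le_exp.mpr
    nlinarith
  · calc C * ((10 + k) ^ D.κ * y ^ D.κ) * (Cg * (T ^ k *
        (Real.exp (Cm / T) * Real.exp (3 / 4 / T * y)))) * W ≤
        C * ((10 + k) ^ D.κ * y ^ D.κ) * (Cg * (T ^ k *
        (Real.exp (Cm / T) * Real.exp (3 / 4 / T * y)))) *
        (Real.exp (3 / 8 * y) * ((8 * C) ^ (3 / 2 : ℝ) * y ^ (3 / 2 : ℝ) *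
          Real.exp (-(3 / 2) * y))) := by
          apply mul_le_mul_of_nonneg_left hWle
          positivity
      _ = K * (y ^ D.κ * y ^ (3 / 2 : ℝ) * (Real.exp (3 / 4 / T * y) * Real.exp (3 / 8 * y) *
          Real.exp (-(3 / 2) * y))) := by
          rw [hK]
          ring
      _ = K * (y ^ (D.κ + 3 / 2 : ℝ) * Real.exp ((3 / 4 / T - 9 / 8) * y)) := by
          rw [Real.rpow_add hy0, ← Real.exp_add, ← Real.exp_add]
          congr 3
          ring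
      _ ≤ K * (y ^ (D.κ + 3 / 2 : ℝ) * Real.exp (-(ε / 2) * y + (ε - 9 / 8) * y)) := by
          apply mul_le_mul_of_nonneg_left _ hK0
          apply mul_le_mul_of_nonneg_left _ (by positivity)
          apply Real.exp_le_exp.mpr
          nlinarith
      _ = K * ((y ^ (D.κ + 3 / 2 : ℝ) * Real.exp (-(ε / 2) * y)) *
            Real.exp ((ε - 9 / 8) * y)) := by
          rw [Real.exp_add]
          ring
      _ ≤ K * (1 * Real.exp ((ε - 9 / 8) * y)) := by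
          apply mul_le_mul_of_nonneg_left _ hK0
          exact mul_le_mul_of_nonneg_right hsm.le (Real.exp_pos _).le
      _ = K * Real.exp ((ε - 9 / 8) * y) := by rw [one_mul]

/-- from large `X` to all `X` -/
theorem fin_part (F : ℕ → ℝ) (hF : ∀ X : ℕ, F X ≤ X) (ε : ℝ) (hε : 0 < ε) (C : ℝ) (hC : 0 < C)
    (h : ∀ᶠ X : ℕ in atTop, F X ≤ C * X * (Real.log X) ^ (ε - 9 / 8)) :
    ∃ C' : ℝ, 0 < C' ∧ ∀ X : ℕ, 3 ≤ X → F X ≤ C' * X * (Real.log X) ^ (ε - 9 / 8) := by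
  obtain ⟨X0, hX0⟩ := eventually_atTop.1 h
  refine ⟨C + (Real.log (X0 + 3)) ^ (9 / 8 : ℝ), ?_, ?_⟩
  · have : 0 ≤ Real.log ((X0 : ℝ) + 3) := Real.log_nonneg (by
      have : (0 : ℝ) ≤ X0 := Nat.cast_nonneg _
      linarith)
    positivity
  intro X hX
  have hX3 : (3 : ℝ) ≤ X := by exact_mod_cast hX
  have hl1 : 1 ≤ Real.log X := by
    rw [Real.le_log_iff_exp_le (by linarith)]
    have := Real.exp_one_lt_d9
    linarith
  have hl0 : 0 < Real.log X := by linarith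
  have hX00 : (0 : ℝ) ≤ X0 := Nat.cast_nonneg _
  have hL0 : 0 ≤ Real.log ((X0 : ℝ) + 3) := Real.log_nonneg (by linarith)
  rcases le_or_gt X0 X with hc | hc
  · refine (hX0 X hc).trans ?_
    have : 0 ≤ (Real.log ((X0 : ℝ) + 3)) ^ (9 / 8 : ℝ) * X * (Real.log X) ^ (ε - 9 / 8) := by
      positivity
    nlinarith
  · refine (hF X).trans ?_
    have h1 : (1 : ℝ) ≤ (Real.log ((X0 : ℝ) + 3)) ^ (9 / 8 : ℝ) * (Real.log X) ^ (ε - 9 / 8) := by
      have h2 : (Real.log X) ^ (9 / 8 : ℝ) ≤ (Real.log ((X0 : ℝ) + 3)) ^ (9 / 8 : ℝ) := by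
        apply Real.rpow_le_rpow hl0.le _ (by norm_num)
        apply Real.log_le_log (by linarith)
        have : (X : ℝ) < X0 := by exact_mod_cast hc
        linarith
      calc (1 : ℝ) ≤ (Real.log X) ^ ε := Real.one_le_rpow hl1 hε.le
        _ = (Real.log X) ^ (9 / 8 : ℝ) * (Real.log X) ^ (ε - 9 / 8) := by
            rw [← Real.rpow_add hl0]
            congr 1
            ring
        _ ≤ _ := mul_le_mul_of_nonneg_right h2 (by positivity)
    have h3 : 0 ≤ C * X * (Real.log X) ^ (ε - 9 / 8) := by positivity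
    have h4 : (X : ℝ) * 1 ≤ X * ((Real.log ((X0 : ℝ) + 3)) ^ (9 / 8 : ℝ) *
        (Real.log X) ^ (ε - 9 / 8)) := mul_le_mul_of_nonneg_left h1 (by linarith)
    nlinarith

theorem c1 (cc : S_CC) (gs : Pool.Agent.W114.PQ.S_GS) (gd : Pool.Agent.W114.PQ.S_GD) : S_C1 := by
  intro D hD ε hε k
  obtain ⟨C, hC, h⟩ := ev cc gs gd D hD ε hε k
  refine fin_part _ (fun X => ?_) ε hε C hC h
  have h1 : {n : ℕ | 1 ≤ n ∧ n ≤ X ∧ Pass D n ∧ (EP D.c0 (wX X) n).card < k ∧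
    (EP D.c0 (wX X) n).Nonempty ∧
    ∃ r : ℕ, wX X < r ∧ Ex D.c0 n r ∧ ∀ r' : ℕ, wX X < r' → Ex D.c0 n r' → r' = r}
      ⊆ ((Finset.Icc 1 X : Finset ℕ) : Set ℕ) := by
    intro n hn
    rw [Finset.coe_Icc]
    exact ⟨hn.1, hn.2.1⟩
  have h2 := Set.ncard_le_ncard h1 (Finset.finite_toSet _)
  rw [Set.ncard_coe_finset, Nat.card_Icc, Nat.add_sub_cancel] at h2
  exact_mod_cast h2

end Pool.Agent.W305.HL
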